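import Pool.Agent.H11.NY.Targets

/-!
# Module C2 of the board ny_modules: canonical lifts of `q`-cycles
-/

set_option autoImplicit false

open Equiv (Perm)

namespace Pool.Agent.H13.NY.C2

open Pool.Agent.H11.NY

section

variable {L Ω K V : Type} [Group L] [Fintype Ω] [DecidableEq Ω] [Field K] [AddCommGroup V]
  [Module K V]

/-- `y` is a good operator for the cycle `s` -/
def Good (ψ : L →* alternatingGroup Ω) (ρ : L →* Module.End K V) (q : ℕ) (s : Perm Ω)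
    (y : Module.End K V) : Prop :=
  (∃ d : L, (ψ d : Perm Ω) = s ∧ ∃ z : K, z ≠ 0 ∧ y = z • ρ d) ∧ y ^ q = 1 ∧
    ∀ w : L, (ψ w : Perm Ω) * s * (ψ w : Perm Ω)⁻¹ = s ^ 4 → ρ w * y = y ^ 4 * ρ w

lemma rho_eq {ψ : L →* alternatingGroup Ω} {ρ : L →* Module.End K V} (hv : ∃ v : V, v ≠ 0)
    (hS : Scal ρ ψ.ker) {x y : L} (h : (ψ x : Perm Ω) = ψ y) :
    ∃ z : K, z ≠ 0 ∧ ρ x = z • ρ y := by
  have hk : x * y⁻¹ ∈ ψ.ker := by
    rw [MonoidHom.mem_ker, map_mul, map_inv, mul_inv_eq_one]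
    exact Subtype.ext h
  obtain ⟨z, hz⟩ := hS _ hk
  have e : ρ x = z • ρ y := by
    ext v
    have h1 := hz (ρ y v)
    rw [← Module.End.mul_apply, ← map_mul, inv_mul_cancel_right] at h1
    rw [h1]
    rfl
  refine ⟨z, ?_, e⟩
  rintro rfl
  obtain ⟨v, hv⟩ := hv
  apply hv
  have h2 : ρ (x⁻¹ * x) v = 0 := by
    rw [map_mul, e, zero_smul, mul_zero]
    rfl
  rwa [inv_mul_cancel, map_one] at h2

lemma smul_inj {ρ : L →* Module.End K V} (hv : ∃ v : V, v ≠ 0) (x : L) {a b : K}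
    (h : a • ρ x = b • ρ x) : a = b := by
  obtain ⟨v, hv⟩ := hv
  have h1 : a • ρ (x * x⁻¹) = b • ρ (x * x⁻¹) := by
    rw [map_mul, ← smul_mul_assoc, ← smul_mul_assoc, h]
  rw [mul_inv_cancel, map_one] at h1
  have h2 := congrArg (fun f : Module.End K V => f v) h1
  simp only [LinearMap.smul_apply, Module.End.one_apply] at h2
  have h3 : (a - b) • v = 0 := by rw [sub_smul, h2, sub_self]
  rcases smul_eq_zero.1 h3 with h4 | h4
  · exact sub_eq_zero.1 h4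
  · exact absurd h4 hv

lemma sign_cycle {q : ℕ} (hq : q.Prime) (h5 : 5 ≤ q) {s : Perm Ω} (hs : s.IsCycle)
    (hc : s.support.card = q) : Equiv.Perm.sign s = 1 := by
  have ho : Odd q := hq.odd_of_ne_two (by omega)
  rw [hs.sign, hc, ho.neg_one_pow, neg_neg]

lemma comm_of [Finite L] (h1 : T_C1) (h2 : T_DX) {ψ : L →* alternatingGroup Ω}
    {ρ : L →* Module.End K V} {q : ℕ} (hq : q.Prime) (h5 : 5 ≤ q)
    (hcard : q + 5 ≤ Fintype.card Ω) (hψ : Function.Surjective ψ) (hv : ∃ v : V, v ≠ 0)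
    (hS : Scal ρ ψ.ker) {s : Perm Ω} (hs : s.IsCycle) (hc : s.support.card = q) {d x : L}
    (hd : (ψ d : Perm Ω) = s) (hx : (ψ x : Perm Ω) * s = s * ψ x) :
    ρ x * ρ d = ρ d * ρ x := by
  have hsg := sign_cycle hq h5 hs hc
  obtain ⟨a, ha, hall⟩ := id hs
  have hcom : Commute (ψ x : Perm Ω) s := hx
  have hga : s ((ψ x : Perm Ω) a) ≠ (ψ x : Perm Ω) a := by
    intro h
    apply ha
    apply (ψ x : Perm Ω).injective
    rw [← h, ← Equiv.Perm.mul_apply, ← Equiv.Perm.mul_apply, hx]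
  obtain ⟨j, hj⟩ := hall hga
  have hτ : ∀ ω, s ω ≠ ω → ((s ^ j)⁻¹ * (ψ x : Perm Ω)) ω = ω := by
    intro ω hω
    obtain ⟨i, hi⟩ := hall hω
    have e1 : (ψ x : Perm Ω) ω = (s ^ i) ((ψ x : Perm Ω) a) := by
      rw [← hi, ← Equiv.Perm.mul_apply, (hcom.zpow_right i).eq, Equiv.Perm.mul_apply]
    rw [Equiv.Perm.mul_apply, e1, ← hj, ← Equiv.Perm.mul_apply, ← Equiv.Perm.mul_apply, ← zpow_neg,
      ← zpow_add, ← zpow_add]
    have : -j + (i + j) = i := by ring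
    rw [← hi]
    congr 2
    rw [show -j + i + j = i by ring]
  have hsτ : Equiv.Perm.sign ((s ^ j)⁻¹ * (ψ x : Perm Ω)) = 1 := by
    have := (ψ x).2
    rw [Equiv.Perm.mem_alternatingGroup] at this
    rw [map_mul, map_inv, map_zpow, hsg, this]
    simp
  have hΔ : 5 ≤ (s.supportᶜ).card := by
    rw [Finset.card_compl, hc]
    omega
  obtain ⟨D, hD, hD2⟩ := h2 L Ω ψ hψ _ hΔ
  obtain ⟨x', hx', hx2⟩ := hD2 ⟨(s ^ j)⁻¹ * (ψ x : Perm Ω), Equiv.Perm.mem_alternatingGroup.2 hsτ⟩ (by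
    intro ω hω
    apply hτ
    rw [Finset.mem_compl, not_not, Equiv.Perm.mem_support] at hω
    exact hω)
  have hc1 := h1 L Ω ψ K V ρ hv hS D hD.1 d (by
    intro d' hd'
    apply Subtype.ext
    have hdis : Equiv.Perm.Disjoint (ψ d : Perm Ω) (ψ d' : Perm Ω) := by
      intro ω
      by_cases hω : s ω = ω
      · left
        rw [hd, hω]
      · right
        apply hD.2 d' hd' ω
        rw [Finset.mem_compl, not_not, Equiv.Perm.mem_support]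
        exact hω
    exact hdis.commute) x' hx'
  have hxx : (ψ x : Perm Ω) = ψ (d ^ j * x') := by
    rw [map_mul, map_zpow, hx2]
    push_cast
    rw [hd, mul_inv_cancel_left]
  obtain ⟨z, -, hz⟩ := rho_eq hv hS hxx
  rw [hz, map_mul, smul_mul_assoc, mul_assoc, ← hc1, ← mul_assoc, ← map_mul,
    (Commute.refl d).zpow_left j, map_mul, mul_assoc, mul_smul_comm]

lemma cycle_pow {q : ℕ} (hq : q.Prime) {s : Perm Ω} (hs : s.IsCycle)
    (hc : s.support.card = q) {j : ℕ} (hj : ¬ q ∣ j) :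
    (s ^ j).IsCycle ∧ (s ^ j).support.card = q := by
  have ho : orderOf s = q := by rw [hs.orderOf, hc]
  have hcop : Nat.Coprime j (orderOf s) := by
    rw [ho]
    exact ((Nat.Prime.coprime_iff_not_dvd hq).2 hj).symm
  refine ⟨hs.pow_iff.2 hcop, ?_⟩
  rw [(hs.support_pow_eq_iff).2 (by rw [ho]; exact hj), hc]

lemma exists_w0 {ψ : L →* alternatingGroup Ω} {q : ℕ} (hq : q.Prime) (h5 : 5 ≤ q)
    (hψ : Function.Surjective ψ) {s : Perm Ω} (hs : s.IsCycle) (hc : s.support.card = q) :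
    ∃ w : L, (ψ w : Perm Ω) * s * (ψ w : Perm Ω)⁻¹ = s ^ 4 := by
  obtain ⟨h2, h3⟩ := cycle_pow (j := 2) hq hs hc (fun h => by
    have := Nat.le_of_dvd (by norm_num) h
    omega)
  obtain ⟨m, hm⟩ := isConj_iff.1 (hs.isConj h2 (by rw [h3, hc]))
  obtain ⟨w, hw⟩ := hψ ⟨m * m, by
    rw [Equiv.Perm.mem_alternatingGroup, map_mul]
    exact Int.units_mul_self _⟩
  refine ⟨w, ?_⟩
  rw [hw]
  calc m * m * s * (m * m)⁻¹ = m * (m * s * m⁻¹) * m⁻¹ := by group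
    _ = m * s ^ 2 * m⁻¹ := by rw [hm]
    _ = (m * s * m⁻¹) ^ 2 := by rw [conj_pow]
    _ = s ^ 4 := by rw [hm, ← pow_mul]

lemma exists_good [Finite L] [IsAlgClosed K] (h1 : T_C1) (h2 : T_DX)
    {ψ : L →* alternatingGroup Ω}
    {ρ : L →* Module.End K V} {q : ℕ} (hq : q.Prime) (h5 : 5 ≤ q)
    (hcard : q + 5 ≤ Fintype.card Ω) (hψ : Function.Surjective ψ) (hv : ∃ v : V, v ≠ 0)
    (hS : Scal ρ ψ.ker) {s : Perm Ω} (hs : s.IsCycle) (hc : s.support.card = q) :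
    ∃ y, Good ψ ρ q s y := by
  obtain ⟨w0, hw0⟩ := exists_w0 hq h5 hψ hs hc
  obtain ⟨d, hd'⟩ := hψ ⟨s, Equiv.Perm.mem_alternatingGroup.2 (sign_cycle hq h5 hs hc)⟩
  have hd : (ψ d : Perm Ω) = s := by rw [hd']
  have ho : orderOf s = q := by rw [hs.orderOf, hc]
  have e1 : (ψ (w0 * d) : Perm Ω) = ψ (d ^ 4 * w0) := by
    rw [map_mul, map_mul, map_pow]
    push_cast
    rw [hd, ← hw0, inv_mul_cancel_right]
  obtain ⟨z1, hz1, hr1⟩ := rho_eq hv hS e1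
  have e2 : (ψ (d ^ q) : Perm Ω) = ψ 1 := by
    rw [map_pow, map_one]
    push_cast
    rw [hd, ← ho, pow_orderOf_eq_one]
  obtain ⟨z0, hz0, hr0⟩ := rho_eq hv hS e2
  rw [map_one, map_pow] at hr0
  rw [map_mul, map_mul, map_pow] at hr1
  have e3 : ∀ n : ℕ, ρ w0 * ρ d ^ n = z1 ^ n • (ρ d ^ (4 * n) * ρ w0) := by
    intro n
    induction n with
    | zero => simp
    | succ n ih =>
      calc ρ w0 * ρ d ^ (n + 1) = (ρ w0 * ρ d ^ n) * ρ d := by rw [pow_succ, mul_assoc]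
        _ = z1 ^ n • (ρ d ^ (4 * n) * (ρ w0 * ρ d)) := by rw [ih, smul_mul_assoc, mul_assoc]
        _ = (z1 ^ n * z1) • (ρ d ^ (4 * n) * ρ d ^ 4 * ρ w0) := by
            rw [hr1, mul_smul_comm, smul_smul, mul_assoc]
        _ = z1 ^ (n + 1) • (ρ d ^ (4 * (n + 1)) * ρ w0) := by
            rw [← pow_succ, ← pow_add, mul_add, mul_one]
  have e4 : z1 ^ q * z0 ^ 3 = 1 := by
    have h := e3 q
    rw [mul_comm 4 q, pow_mul, hr0, smul_pow, one_pow, smul_one_mul, smul_smul, mul_smul_comm,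
      mul_one] at h
    have h' := smul_inj hv w0 h
    have h'' : z0 * 1 = z0 * (z1 ^ q * z0 ^ 3) := by rw [mul_one]; nth_rewrite 1 [h']; ring
    exact (mul_left_cancel₀ hz0 h'').symm
  obtain ⟨z, hz⟩ := IsAlgClosed.exists_pow_nat_eq z1 (n := 3) (by norm_num)
  have hξ : (z ^ q * z0) ^ 3 = 1 := by
    rw [← e4, ← hz]
    ring
  obtain ⟨k, hk⟩ : ∃ k : ℕ, 3 ∣ k * q + 1 := by
    have h3 : ¬ 3 ∣ q := fun h => by
      have := (Nat.prime_dvd_prime_iff_eq Nat.prime_three hq).1 h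
      omega
    by_cases h31 : q % 3 = 1
    · exact ⟨2, by omega⟩
    · exact ⟨1, by omega⟩
  have hz00 : z ≠ 0 := by
    rintro rfl
    apply hz1
    rw [← hz]
    simp
  have hξ0 : z ^ q * z0 ≠ 0 := mul_ne_zero (pow_ne_zero _ hz00) hz0
  obtain ⟨Z, hZ0, hZ3, hZq⟩ : ∃ Z : K, Z ≠ 0 ∧ Z ^ 3 = z1 ∧ Z ^ q * z0 = 1 := by
    refine ⟨z * (z ^ q * z0) ^ k, mul_ne_zero hz00 (pow_ne_zero _ hξ0), ?_, ?_⟩
    · rw [mul_pow, ← pow_mul, mul_comm k 3, pow_mul, hξ, one_pow, mul_one, hz]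
    · obtain ⟨c, hc⟩ := hk
      calc (z * (z ^ q * z0) ^ k) ^ q * z0 = (z ^ q * z0) ^ (k * q + 1) := by
            rw [pow_succ, pow_mul, mul_pow]; ring
        _ = 1 := by rw [hc, pow_mul, hξ, one_pow]
  have hy4 : ρ w0 * (Z • ρ d) = (Z • ρ d) ^ 4 * ρ w0 := by
    rw [mul_smul_comm, hr1, smul_smul, smul_pow, smul_mul_assoc, ← hZ3]
    congr 1
    ring
  refine ⟨Z • ρ d, ⟨d, hd, Z, hZ0, rfl⟩, ?_, ?_⟩
  · rw [smul_pow, hr0, smul_smul, hZq, one_smul]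
  · intro w hw
    have hcw : (ψ (w0⁻¹ * w) : Perm Ω) * s = s * ψ (w0⁻¹ * w) := by
      rw [map_mul, map_inv]
      push_cast
      have h3 : (ψ w : Perm Ω) * s = s ^ 4 * ψ w := by rw [← hw, inv_mul_cancel_right]
      have h4 : (ψ w0 : Perm Ω)⁻¹ * s ^ 4 = s * (ψ w0 : Perm Ω)⁻¹ := by
        rw [← hw0]
        group
      rw [mul_assoc, h3, ← mul_assoc, h4, mul_assoc]
    have hcc := comm_of h1 h2 hq h5 hcard hψ hv hS hs hc hd hcw
    have hww : ρ w = ρ w0 * ρ (w0⁻¹ * w) := by rw [← map_mul, mul_inv_cancel_left]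
    calc ρ w * (Z • ρ d) = ρ w0 * (ρ (w0⁻¹ * w) * (Z • ρ d)) := by rw [hww, mul_assoc]
      _ = ρ w0 * ((Z • ρ d) * ρ (w0⁻¹ * w)) := by rw [mul_smul_comm, hcc, smul_mul_assoc]
      _ = (Z • ρ d) ^ 4 * ρ w0 * ρ (w0⁻¹ * w) := by rw [← mul_assoc, hy4]
      _ = (Z • ρ d) ^ 4 * ρ w := by rw [mul_assoc, ← hww]

lemma good_unique {ψ : L →* alternatingGroup Ω}
    {ρ : L →* Module.End K V} {q : ℕ} (hq : q.Prime) (h5 : 5 ≤ q)
    (hψ : Function.Surjective ψ) (hv : ∃ v : V, v ≠ 0)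
    (hS : Scal ρ ψ.ker) {s : Perm Ω} (hs : s.IsCycle) (hc : s.support.card = q)
    {y y' : Module.End K V} (hy : Good ψ ρ q s y) (hy' : Good ψ ρ q s y') : y' = y := by
  obtain ⟨w0, hw0⟩ := exists_w0 hq h5 hψ hs hc
  obtain ⟨⟨d, hd, z, hz, rfl⟩, hyq, hyw⟩ := hy
  obtain ⟨⟨d', hd', z', hz', hyd'⟩, hyq', hyw'⟩ := hy'
  obtain ⟨ζ, hζ, hζd⟩ := rho_eq hv hS (hd'.trans hd.symm)
  obtain ⟨c, hc0, rfl⟩ : ∃ c : K, c ≠ 0 ∧ y' = c • (z • ρ d) := by
    refine ⟨z' * ζ * z⁻¹, mul_ne_zero (mul_ne_zero hz' hζ) (inv_ne_zero hz), ?_⟩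
    rw [hyd', hζd, smul_smul, smul_smul, mul_assoc _ z⁻¹ z, inv_mul_cancel₀ hz, mul_one]
  have hcq : c ^ q = 1 := by
    rw [smul_pow, hyq] at hyq'
    have : c ^ q • ρ 1 = (1 : K) • ρ 1 := by rw [map_one, hyq', one_smul]
    exact smul_inj hv 1 this
  have hc3 : c ^ 3 = 1 := by
    have h1 := hyw w0 hw0
    have h2 := hyw' w0 hw0
    rw [mul_smul_comm, h1, smul_pow c, smul_mul_assoc, smul_pow z, smul_mul_assoc, smul_smul,
      smul_smul, ← map_pow, ← map_mul] at h2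
    have h3 := smul_inj hv _ h2
    have h4 : c * z ^ 4 * 1 = c * z ^ 4 * c ^ 3 := by
      calc c * z ^ 4 * 1 = c * z ^ 4 := mul_one _
        _ = c ^ 4 * z ^ 4 := h3
        _ = c * z ^ 4 * c ^ 3 := by ring
    exact (mul_left_cancel₀ (mul_ne_zero hc0 (pow_ne_zero _ hz)) h4).symm
  have hcop : Nat.Coprime 3 q := by
    rw [Nat.coprime_primes Nat.prime_three hq]
    omega
  have hc1 : c = 1 := by
    have h1 : orderOf c ∣ 3 := orderOf_dvd_of_pow_eq_one hc3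
    have h2 : orderOf c ∣ q := orderOf_dvd_of_pow_eq_one hcq
    have h3 := Nat.dvd_gcd h1 h2
    rw [hcop] at h3
    exact orderOf_eq_one_iff.1 (Nat.dvd_one.1 h3)
  rw [hc1, one_smul]

lemma good_pow {ψ : L →* alternatingGroup Ω}
    {ρ : L →* Module.End K V} {q : ℕ} (hq : q.Prime) {s : Perm Ω} (hs : s.IsCycle)
    (hc : s.support.card = q) {y : Module.End K V} (hy : Good ψ ρ q s y) {j : ℕ}
    (hj : ¬ q ∣ j) : Good ψ ρ q (s ^ j) (y ^ j) := by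
  obtain ⟨⟨d, hd, z, hz, hyd⟩, hyq, hyw⟩ := hy
  have ho : orderOf s = q := by rw [hs.orderOf, hc]
  refine ⟨⟨d ^ j, by rw [map_pow]; push_cast; rw [hd], z ^ j, pow_ne_zero _ hz, by
    rw [hyd, smul_pow, map_pow]⟩, ?_, ?_⟩
  · rw [← pow_mul, mul_comm, pow_mul, hyq, one_pow]
  · intro w hw
    have hcop : Nat.Coprime j (orderOf s) := by
      rw [ho]
      exact ((Nat.Prime.coprime_iff_not_dvd hq).2 hj).symm
    obtain ⟨i, hi⟩ := exists_pow_eq_self_of_coprime hcop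
    have hw4 : (ψ w : Perm Ω) * s * (ψ w : Perm Ω)⁻¹ = s ^ 4 := by
      calc (ψ w : Perm Ω) * s * (ψ w : Perm Ω)⁻¹
          = (ψ w : Perm Ω) * (s ^ j) ^ i * (ψ w : Perm Ω)⁻¹ := by rw [hi]
        _ = ((ψ w : Perm Ω) * s ^ j * (ψ w : Perm Ω)⁻¹) ^ i := by rw [conj_pow]
        _ = ((s ^ j) ^ i) ^ 4 := by rw [hw, ← pow_mul (s ^ j), ← pow_mul (s ^ j), mul_comm 4 i]
        _ = s ^ 4 := by rw [hi]
    have h4 := hyw w hw4
    have h5 : ∀ n : ℕ, ρ w * y ^ n = (y ^ 4) ^ n * ρ w := by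
      intro n
      induction n with
      | zero => simp
      | succ n ih => rw [pow_succ y, ← mul_assoc, ih, mul_assoc, h4, ← mul_assoc, ← pow_succ]
    rw [h5 j, ← pow_mul, ← pow_mul, mul_comm]

lemma good_conj {ψ : L →* alternatingGroup Ω}
    {ρ : L →* Module.End K V} {q : ℕ} {s : Perm Ω} {y : Module.End K V}
    (hy : Good ψ ρ q s y) (x : L) :
    Good ψ ρ q ((ψ x : Perm Ω) * s * (ψ x : Perm Ω)⁻¹) (ρ x * y * ρ x⁻¹) := by
  obtain ⟨⟨d, hd, z, hz, hyd⟩, hyq, hyw⟩ := hy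
  have hpow : ∀ n : ℕ, (ρ x * y * ρ x⁻¹) ^ n = ρ x * y ^ n * ρ x⁻¹ := by
    intro n
    induction n with
    | zero => rw [pow_zero, pow_zero, mul_one, ← map_mul, mul_inv_cancel, map_one]
    | succ n ih =>
      have e : ρ x⁻¹ * ρ x = 1 := by rw [← map_mul, inv_mul_cancel, map_one]
      calc (ρ x * y * ρ x⁻¹) ^ (n + 1) = ρ x * y ^ n * (ρ x⁻¹ * ρ x) * y * ρ x⁻¹ := by
            rw [pow_succ, ih]; simp only [mul_assoc]
        _ = ρ x * y ^ (n + 1) * ρ x⁻¹ := by rw [e, mul_one, pow_succ]; simp only [mul_assoc]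
  refine ⟨⟨x * d * x⁻¹, by rw [map_mul, map_mul, map_inv]; push_cast; rw [hd], z, hz, by
    rw [hyd, map_mul, map_mul, mul_smul_comm, smul_mul_assoc]⟩, ?_, ?_⟩
  · rw [hpow, hyq, mul_one, ← map_mul, mul_inv_cancel, map_one]
  · intro w hw
    have hw' : (ψ (x⁻¹ * w * x) : Perm Ω) * s * (ψ (x⁻¹ * w * x) : Perm Ω)⁻¹ = s ^ 4 := by
      rw [map_mul, map_mul, map_inv]
      push_cast
      rw [conj_pow] at hw
      calc (ψ x : Perm Ω)⁻¹ * (ψ w : Perm Ω) * (ψ x : Perm Ω) * s *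
            ((ψ x : Perm Ω)⁻¹ * (ψ w : Perm Ω) * (ψ x : Perm Ω))⁻¹
          = (ψ x : Perm Ω)⁻¹ * ((ψ w : Perm Ω) * ((ψ x : Perm Ω) * s * (ψ x : Perm Ω)⁻¹) *
            (ψ w : Perm Ω)⁻¹) * (ψ x : Perm Ω) := by group
        _ = s ^ 4 := by rw [hw]; group
    have h := hyw _ hw'
    have e : ρ x * ρ x⁻¹ = 1 := by rw [← map_mul, mul_inv_cancel, map_one]
    have e' : ρ x⁻¹ * ρ x = 1 := by rw [← map_mul, inv_mul_cancel, map_one]
    rw [map_mul, map_mul] at h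
    rw [hpow]
    calc ρ w * (ρ x * y * ρ x⁻¹) = (ρ x * ρ x⁻¹) * ρ w * (ρ x * y * ρ x⁻¹) := by
          rw [e, one_mul]
      _ = ρ x * (ρ x⁻¹ * ρ w * ρ x * y) * ρ x⁻¹ := by simp only [mul_assoc]
      _ = ρ x * (y ^ 4 * (ρ x⁻¹ * ρ w * ρ x)) * ρ x⁻¹ := by rw [h]
      _ = ρ x * y ^ 4 * ρ x⁻¹ * ρ w * (ρ x * ρ x⁻¹) := by simp only [mul_assoc]
      _ = ρ x * y ^ 4 * ρ x⁻¹ * ρ w := by rw [e, mul_one]

end

theorem pf_c2 : T_C1 → T_DX → T_C2 := by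
  classical
  intro h1 h2 q L Ω _ _ _ _ ψ K V _ _ _ _ ρ hq h5 hcard hψ hv hS
  have hex : ∀ s : Perm Ω, s.IsCycle ∧ s.support.card = q → ∃ y, Good ψ ρ q s y :=
    fun s hs => exists_good h1 h2 hq h5 hcard hψ hv hS hs.1 hs.2
  let c : Perm Ω → Module.End K V := fun s =>
    if h : s.IsCycle ∧ s.support.card = q then (hex s h).choose else 0
  have hcs : ∀ s : Perm Ω, s.IsCycle → s.support.card = q → Good ψ ρ q s (c s) := by
    intro s hs hs'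
    have e : c s = (hex s ⟨hs, hs'⟩).choose := dif_pos ⟨hs, hs'⟩
    rw [e]
    exact (hex s ⟨hs, hs'⟩).choose_spec
  refine ⟨c, ?_⟩
  intro s hs hs'
  have hg := hcs s hs hs'
  refine ⟨hg.1, hg.2.1, ?_, ?_⟩
  · intro j hj
    obtain ⟨h3, h4⟩ := cycle_pow hq hs hs' hj
    exact good_unique hq h5 hψ hv hS h3 h4 (good_pow hq hs hs' hg hj) (hcs _ h3 h4)
  · intro x
    have h3 : ((ψ x : Perm Ω) * s * (ψ x : Perm Ω)⁻¹).IsCycle := hs.conj
    have h4 : ((ψ x : Perm Ω) * s * (ψ x : Perm Ω)⁻¹).support.card = q := by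
      rw [Equiv.Perm.card_support_conj, hs']
    have h5' := good_unique hq h5 hψ hv hS h3 h4 (good_conj hg x) (hcs _ h3 h4)
    rw [h5', mul_assoc, ← map_mul, inv_mul_cancel, map_one, mul_one]

end Pool.Agent.H13.NY.C2
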